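import Pool.Agent.Helper64.CT.Stmts

/-! MP_866009_co, module L3D: three neighbours of a vertex, the last case. -/

set_option autoImplicit false

namespace Pool.Agent.Helper64.CT

/-- a one-step-at-a-time comparison of components: if the component of `b` in `G - N[c]` is a
single vertex and `b` is not in the component of `a`, this component survives in `G - N[b]` -/
theorem l3d_sub {V : Type} {G : SimpleGraph V} {a b c : V} (hab : a ∈ Far G b)
    (hbc : b ∈ Far G c) (hne : ¬ Comp G c a b) (hs : ∀ z, Comp G c b z → z = b) :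
    ∀ w, Comp G c a w → Comp G b a w := by
  intro w hw
  refine Comp.ind hw (fun w => Comp G b a w) (Comp.refl hab) ?_
  intro z w hz hP hwf hzw
  have hwb : w ≠ b := by
    intro e
    subst e
    exact hne (hz.step hwf hzw)
  have hnb : ¬ G.Adj b w := fun h => hwb (hs w (Comp.adj hbc hwf h))
  exact hP.step ⟨hwb, hnb⟩ hzw

/-- conversely, a component in `G - N[b]` stays in `G - N[c]` if all attachments are neighbours
of `b` -/
theorem l3d_sup {V : Type} {G : SimpleGraph V} {a b c : V} (hac : a ∈ Far G c)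
    (hN : ∀ n, n ∈ Att G c a → G.Adj b n) :
    ∀ w, Comp G b a w → Comp G c a w := by
  intro w hw
  refine Comp.ind hw (fun w => Comp G c a w) (Comp.refl hac) ?_
  intro z w hz hP hwf hzw
  have hwc : w ≠ c := by
    intro e
    subst e
    exact hP.right.2 hzw.symm
  have hnc : ¬ G.Adj c w := by
    intro h
    exact hwf.2 (hN w ⟨h, z, hP, hzw.symm⟩)
  exact hP.step ⟨hwc, hnc⟩ hzw

theorem st_L3D (hL2 : ST_L2) (hBET : ST_BET) (hALS : ST_ALS) : ST_L3D := by
  intro V G s hpre hTF hCI hPr hSys x a b c hxa hxb hxc hab hac hbc hcab habc h1 h2 h3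
  have nab : ¬ G.Adj a b := hTF a x b hxa.symm hxb
  have nac : ¬ G.Adj a c := hTF a x c hxa.symm hxc
  have nbc : ¬ G.Adj b c := hTF b x c hxb.symm hxc
  have fba : b ∈ Far G a := ⟨hab.symm, nab⟩
  have fab : a ∈ Far G b := Far.symm fba
  have fca : c ∈ Far G a := ⟨hac.symm, nac⟩
  have fac : a ∈ Far G c := Far.symm fca
  have fcb : c ∈ Far G b := ⟨hbc.symm, nbc⟩
  have fbc : b ∈ Far G c := Far.symm fcb
  have hα : Alpha G a c b := by
    by_contra hα
    exact habc (hBET V G a c b fac fbc hcab hα b (Comp.refl fbc)).symm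
  obtain ⟨hsing, hAac, hAca, ⟨u, hu, hum⟩, u', hu', hum'⟩ :=
    (hL2 V G s hpre hTF hCI hPr hSys a c b fac hα).2 h2 h1.symm
  obtain ⟨_, hcc, _⟩ := hALS V G a c b fac hα
  have hsing' : ∀ z, Comp G a b z → z = b := fun z hz => hsing z ((hcc z).1 hz)
  have hN : ∀ n, n ∈ Att G c b ↔ G.Adj b n := by
    intro n
    constructor
    · rintro ⟨_, w, hw, hnw⟩
      have e := hsing w hw
      subst e
      exact hnw.symm
    · intro hbn
      have hcn : G.Adj c n := by
        by_contra hcn
        have hnc : n ≠ c := by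
          intro e
          subst e
          exact nbc hbn
        have e := hsing n (Comp.adj fbc ⟨hnc, hcn⟩ hbn)
        exact hbn.ne e.symm
      exact ⟨hcn, b, Comp.refl fbc, hbn.symm⟩
  have hca := l3d_sub fab fbc hcab hsing
  have hac' := l3d_sub fcb fba (fun h => habc h.symm) hsing'
  have hnotb : ¬ Comp G b a c := by
    intro h
    have h' := l3d_sup fac (fun n hn => (hN n).1 (hAca ▸ hn)) c h
    exact h'.right.1 rfl
  have hAba : Att G b a = Att G c b := by
    ext n
    constructor
    · rintro ⟨hbn, _⟩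
      exact (hN n).2 hbn
    · intro hn
      have hn' : n ∈ Att G c a := by rw [hAca]; exact hn
      obtain ⟨_, w, hw, hnw⟩ := hn'
      exact ⟨(hN n).1 hn, w, hca w hw, hnw⟩
  have hAbc : Att G b c = Att G c b := by
    ext n
    constructor
    · rintro ⟨hbn, _⟩
      exact (hN n).2 hbn
    · intro hn
      have hn' : n ∈ Att G a c := by rw [hAac]; exact hn
      obtain ⟨_, w, hw, hnw⟩ := hn'
      exact ⟨(hN n).1 hn, w, hac' w hw, hnw⟩
  have hconf : Conf G b a c := by
    refine ⟨hnotb, ⟨u', hca u' hu', ?_⟩, u, hac' u hu, ?_⟩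
    · rw [hAbc]; exact hum'
    · rw [hAba]; exact hum
  exact (hSys b).2 a c hconf h3

end Pool.Agent.Helper64.CT
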